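import Mathlib

namespace Pool.Agent.Results.MP_7efe7b_al.DepthLower

/-- `a(xw) = x̄w`. -/
def fa : List Bool → List Bool
  | [] => []
  | x :: w => (!x) :: w

mutual
/-- `b(0w) = 0 a(w)`, `b(1w) = 1 c(w)`. -/
def fb : List Bool → List Bool
  | [] => []
  | false :: w => false :: fa w
  | true :: w => true :: fc w
/-- `c(0w) = 0 a(w)`, `c(1w) = 1 d(w)`. -/
def fc : List Bool → List Bool
  | [] => []
  | false :: w => false :: fa w
  | true :: w => true :: fd w
/-- `d(0w) = 0 w`, `d(1w) = 1 b(w)`. -/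
def fd : List Bool → List Bool
  | [] => []
  | false :: w => false :: w
  | true :: w => true :: fb w
end

theorem fa_inv : Function.Involutive fa := by
  intro w
  cases w <;> simp [fa]

theorem fbcd_inv (w : List Bool) : fb (fb w) = w ∧ fc (fc w) = w ∧ fd (fd w) = w := by
  induction w with
  | nil => simp [fb, fc, fd]
  | cons x w ih =>
    obtain ⟨h1, h2, h3⟩ := ih
    cases x <;> simp [fb, fc, fd, h1, h2, h3, fa_inv w]

/-- The generator `a`, as a permutation of the vertices of the tree. -/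
def a : Equiv.Perm (List Bool) := Function.Involutive.toPerm fa fa_inv
/-- The generator `b`. -/
def b : Equiv.Perm (List Bool) := Function.Involutive.toPerm fb (fun w => (fbcd_inv w).1)
/-- The generator `c`. -/
def c : Equiv.Perm (List Bool) := Function.Involutive.toPerm fc (fun w => (fbcd_inv w).2.1)
/-- The generator `d`. -/
def d : Equiv.Perm (List Bool) := Function.Involutive.toPerm fd (fun w => (fbcd_inv w).2.2)

/-- The Grigorchuk group, acting on the vertices of the binary tree. -/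
def G : Subgroup (Equiv.Perm (List Bool)) := Subgroup.closure {a, b, c, d}

/-- Word length with respect to `{a, b, c, d}`. -/
noncomputable def wordLen (g : Equiv.Perm (List Bool)) : ℕ :=
  sInf {n | ∃ l : List (Equiv.Perm (List Bool)), l.length = n ∧
    (∀ x ∈ l, x = a ∨ x = b ∨ x = c ∨ x = d) ∧ l.prod = g}

/-- Every section of `g` at level `n` lies in `{1, a, b, c, d}`. -/
def Dep (n : ℕ) (g : Equiv.Perm (List Bool)) : Prop :=
  ∀ u : List Bool, u.length = n → ∃ s : Equiv.Perm (List Bool),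
    (s = 1 ∨ s = a ∨ s = b ∨ s = c ∨ s = d) ∧ ∀ w : List Bool, g (u ++ w) = g u ++ s w

/-- The depth `d(g)`. -/
noncomputable def depth (g : Equiv.Perm (List Bool)) : ℕ := sInf {n | Dep n g}

/-- the function of `pair` -/
def pairFun (g h : List Bool → List Bool) : List Bool → List Bool
  | [] => []
  | false :: w => false :: g w
  | true :: w => true :: h w

/-- The automorphism `(g, h)` fixing level one. -/
def pair (g h : Equiv.Perm (List Bool)) : Equiv.Perm (List Bool) where
  toFun := pairFun g h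
  invFun := pairFun g.symm h.symm
  left_inv := by
    intro w
    rcases w with _ | ⟨x, w⟩
    · rfl
    · cases x <;> simp [pairFun]
  right_inv := by
    intro w
    rcases w with _ | ⟨x, w⟩
    · rfl
    · cases x <;> simp [pairFun]

theorem pair_nil (g h : Equiv.Perm (List Bool)) : pair g h [] = [] := rfl
theorem pair_false (g h : Equiv.Perm (List Bool)) (w : List Bool) :
    pair g h (false :: w) = false :: g w := rfl
theorem pair_true (g h : Equiv.Perm (List Bool)) (w : List Bool) :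
    pair g h (true :: w) = true :: h w := rfl

theorem perm_ext {g h : Equiv.Perm (List Bool)} (h0 : g [] = h [])
    (h1 : ∀ w, g (false :: w) = h (false :: w)) (h2 : ∀ w, g (true :: w) = h (true :: w)) :
    g = h := by
  ext1 w
  rcases w with _ | ⟨x, w⟩
  · exact h0
  · cases x
    · exact h1 w
    · exact h2 w

theorem pair_mul (g h g' h' : Equiv.Perm (List Bool)) :
    pair g h * pair g' h' = pair (g * g') (h * h') :=
  perm_ext rfl (fun _ => rfl) (fun _ => rfl)

theorem pair_one : pair 1 1 = 1 := perm_ext rfl (fun _ => rfl) (fun _ => rfl)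

theorem pair_inv (g h : Equiv.Perm (List Bool)) : (pair g h)⁻¹ = pair g⁻¹ h⁻¹ :=
  perm_ext rfl (fun _ => rfl) (fun _ => rfl)

theorem a_pair (g h : Equiv.Perm (List Bool)) : a * pair g h = pair h g * a :=
  perm_ext rfl (fun _ => rfl) (fun _ => rfl)

theorem a_mul_a : a * a = 1 := by
  ext1 w
  exact fa_inv w

theorem a_apply (w : List Bool) : a w = fa w := rfl
theorem b_apply (w : List Bool) : b w = fb w := rfl
theorem c_apply (w : List Bool) : c w = fc w := rfl
theorem d_apply (w : List Bool) : d w = fd w := rfl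

theorem b_eq : b = pair a c := by
  refine perm_ext ?_ (fun w => ?_) (fun w => ?_)
  · rw [b_apply, fb, pair_nil]
  · rw [b_apply, fb, pair_false, a_apply]
  · rw [b_apply, fb, pair_true, c_apply]

theorem c_eq : c = pair a d := by
  refine perm_ext ?_ (fun w => ?_) (fun w => ?_)
  · rw [c_apply, fc, pair_nil]
  · rw [c_apply, fc, pair_false, a_apply]
  · rw [c_apply, fc, pair_true, d_apply]

theorem d_eq : d = pair 1 b := by
  refine perm_ext ?_ (fun w => ?_) (fun w => ?_)
  · rw [d_apply, fd, pair_nil]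
  · rw [d_apply, fd, pair_false, Equiv.Perm.one_apply]
  · rw [d_apply, fd, pair_true, b_apply]

theorem b_mul_b : b * b = 1 := by
  ext1 w
  exact (fbcd_inv w).1
theorem c_mul_c : c * c = 1 := by
  ext1 w
  exact (fbcd_inv w).2.1
theorem d_mul_d : d * d = 1 := by
  ext1 w
  exact (fbcd_inv w).2.2

theorem fbcd (w : List Bool) : fb (fc w) = fd w ∧ fc (fd w) = fb w ∧ fd (fb w) = fc w := by
  induction w with
  | nil => simp [fb, fc, fd]
  | cons x w ih =>
    obtain ⟨h1, h2, h3⟩ := ih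
    cases x <;> simp [fb, fc, fd, h1, h2, h3, fa_inv w]

theorem b_mul_c : b * c = d := by
  ext1 w
  exact (fbcd w).1
theorem c_mul_d : c * d = b := by
  ext1 w
  exact (fbcd w).2.1
theorem d_mul_b : d * b = c := by
  ext1 w
  exact (fbcd w).2.2
theorem c_mul_b : c * b = d := by
  rw [← c_mul_d, ← mul_assoc, c_mul_c, one_mul]
theorem d_mul_c : d * c = b := by
  rw [← d_mul_b, ← mul_assoc, d_mul_d, one_mul]
theorem b_mul_d : b * d = c := by
  rw [← b_mul_c, ← mul_assoc, b_mul_b, one_mul]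


theorem a_inv : a⁻¹ = a := inv_eq_of_mul_eq_one_left a_mul_a
theorem b_inv : b⁻¹ = b := inv_eq_of_mul_eq_one_left b_mul_b
theorem c_inv : c⁻¹ = c := inv_eq_of_mul_eq_one_left c_mul_c
theorem d_inv : d⁻¹ = d := inv_eq_of_mul_eq_one_left d_mul_d

theorem a_conj (g h : Equiv.Perm (List Bool)) : a * pair g h * a = pair h g := by
  rw [a_pair, mul_assoc, a_mul_a, mul_one]

/-- `ρ = d a` -/
def rho : Equiv.Perm (List Bool) := d * a

theorem rho_pow4 : rho ^ 4 = 1 := by
  have h1 : rho * rho = pair b b := by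
    have : rho * rho = d * (a * d * a) := by simp only [rho, mul_assoc]
    rw [this, d_eq, a_conj, pair_mul, one_mul, mul_one]
  rw [show 4 = 2 + 2 from rfl, pow_add, pow_two, h1, pair_mul, b_mul_b, pair_one]

theorem ac_pow8 : (a * c) ^ 8 = 1 := by
  have h2 : (a * c) * (a * c) = pair (d * a) (a * d) := by
    have : (a * c) * (a * c) = (a * c * a) * c := by simp only [mul_assoc]
    rw [this]
    nth_rewrite 1 [c_eq]
    rw [a_conj]
    nth_rewrite 1 [c_eq]
    rw [pair_mul]
  have h3 : (a * d) ^ 4 = 1 := by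
    have : a * d = rho⁻¹ := by simp [rho, mul_inv_rev, a_inv, d_inv]
    rw [this, inv_pow, rho_pow4, inv_one]
  have h4 : ∀ (g h : Equiv.Perm (List Bool)) (n : ℕ), pair g h ^ n = pair (g ^ n) (h ^ n) := by
    intro g h n
    induction n with
    | zero => simp [pair_one]
    | succ n ih => rw [pow_succ, ih, pair_mul, pow_succ, pow_succ]
  rw [show 8 = 2 * 4 from rfl, pow_mul, pow_two, h2, h4, h3]
  have h5 : (d * a) ^ 4 = 1 := rho_pow4
  rw [h5, pair_one]

/-- letters of the Klein four group -/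
inductive V4 | e | b | c | d
  deriving DecidableEq

/-- value -/
def V4.val : V4 → Equiv.Perm (List Bool)
  | .e => 1
  | .b => DepthLower.b
  | .c => DepthLower.c
  | .d => DepthLower.d

/-- product -/
def V4.mul : V4 → V4 → V4
  | .e, x => x
  | x, .e => x
  | .b, .b => .e
  | .c, .c => .e
  | .d, .d => .e
  | .b, .c => .d
  | .b, .d => .c
  | .c, .b => .d
  | .c, .d => .b
  | .d, .b => .c
  | .d, .c => .b

theorem V4.val_mul (x y : V4) : (V4.mul x y).val = x.val * y.val := by
  cases x <;> cases y <;> simp [V4.mul, V4.val, b_mul_b, c_mul_c, d_mul_d, b_mul_c, c_mul_b,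
    b_mul_d, d_mul_b, c_mul_d, d_mul_c]

/-- `τ` -/
def V4.tau : V4 → V4
  | .e => .e
  | .b => .d
  | .c => .b
  | .d => .c

/-- first coordinate of `τ x` -/
def V4.al : V4 → Equiv.Perm (List Bool)
  | .e => 1
  | .b => 1
  | .c => a
  | .d => a

theorem V4.tau_val (x : V4) : x.tau.val = pair x.al x.val := by
  cases x
  · simp [V4.tau, V4.val, V4.al, pair_one]
  · simp [V4.tau, V4.val, V4.al, ← d_eq]
  · simp [V4.tau, V4.val, V4.al, ← b_eq]
  · simp [V4.tau, V4.val, V4.al, ← c_eq]

/-- syllable words: `P [x₁, …, xₙ] = a x₁ a x₂ ⋯ a xₙ` -/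
def P (w : List V4) : Equiv.Perm (List Bool) := (w.map (fun x => a * x.val)).prod

theorem P_nil : P [] = 1 := rfl
theorem P_cons (x : V4) (w : List V4) : P (x :: w) = a * x.val * P w := by simp [P]
theorem P_append (u v : List V4) : P (u ++ v) = P u * P v := by simp [P]
theorem P_e : P [.e] = a := by simp [P, V4.val]

theorem mem_a : a ∈ G := Subgroup.subset_closure (by simp)
theorem mem_b : b ∈ G := Subgroup.subset_closure (by simp)
theorem mem_c : c ∈ G := Subgroup.subset_closure (by simp)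
theorem mem_d : d ∈ G := Subgroup.subset_closure (by simp)

theorem V4.mem (x : V4) : x.val ∈ G := by
  cases x
  · exact G.one_mem
  · exact mem_b
  · exact mem_c
  · exact mem_d

theorem P_mem (w : List V4) : P w ∈ G := by
  induction w with
  | nil => exact G.one_mem
  | cons x w ih =>
    rw [P_cons]
    exact G.mul_mem (G.mul_mem mem_a x.mem) ih

theorem P_inv (w : List V4) : ∃ w', P w' = (P w)⁻¹ := by
  induction w with
  | nil => exact ⟨[], by simp [P_nil]⟩
  | cons x w ih =>
    obtain ⟨w', hw'⟩ := ih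
    refine ⟨w' ++ [.e, x, .e], ?_⟩
    have hx : x.val⁻¹ = x.val := by
      cases x <;> simp [V4.val, b_inv, c_inv, d_inv]
    have h1 : P [.e, x, .e] = x.val * a := by
      simp only [P_cons, P_nil, V4.val, mul_one]
      rw [← mul_assoc, ← mul_assoc, a_mul_a, one_mul]
    rw [P_append, hw', h1, P_cons, mul_inv_rev, mul_inv_rev, hx, a_inv]

theorem P_surj {g : Equiv.Perm (List Bool)} (hg : g ∈ G) : ∃ w, P w = g := by
  have hx : ∀ x : V4, P [.e, x] = x.val := by
    intro x
    simp only [P_cons, P_nil, V4.val, mul_one]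
    rw [← mul_assoc, a_mul_a, one_mul]
  induction hg using Subgroup.closure_induction with
  | mem x hx' =>
    simp only [Set.mem_insert_iff, Set.mem_singleton_iff] at hx'
    rcases hx' with rfl | rfl | rfl | rfl
    · exact ⟨[.e], P_e⟩
    · exact ⟨[.e, .b], hx .b⟩
    · exact ⟨[.e, .c], hx .c⟩
    · exact ⟨[.e, .d], hx .d⟩
  | one => exact ⟨[], P_nil⟩
  | mul x y _ _ ihx ihy =>
    obtain ⟨u, rfl⟩ := ihx
    obtain ⟨v, rfl⟩ := ihy
    exact ⟨u ++ v, P_append u v⟩
  | inv x _ ih =>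
    obtain ⟨u, rfl⟩ := ih
    exact P_inv u

/-- syllable length -/
noncomputable def ell (g : Equiv.Perm (List Bool)) : ℕ := sInf {n | ∃ w, w.length = n ∧ P w = g}

theorem ell_spec {g : Equiv.Perm (List Bool)} (hg : g ∈ G) : ∃ w, w.length = ell g ∧ P w = g := by
  obtain ⟨w, hw⟩ := P_surj hg
  exact Nat.sInf_mem (s := {n | ∃ w, w.length = n ∧ P w = g}) ⟨w.length, w, rfl, hw⟩

theorem ell_le (w : List V4) : ell (P w) ≤ w.length := Nat.sInf_le ⟨w, rfl, rfl⟩

theorem ell_mul {g h : Equiv.Perm (List Bool)} (hg : g ∈ G) (hh : h ∈ G) :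
    ell (g * h) ≤ ell g + ell h := by
  obtain ⟨u, hu, rfl⟩ := ell_spec hg
  obtain ⟨v, hv, rfl⟩ := ell_spec hh
  rw [← P_append, ← hu, ← hv, ← List.length_append]
  exact ell_le _

theorem ell_a : ell a ≤ 1 := by
  have := ell_le [.e]
  rwa [P_e] at this

theorem ell_conj {g : Equiv.Perm (List Bool)} (hg : g ∈ G) : ell (a * g * a) ≤ ell g + 2 := by
  have h1 := ell_mul (G.mul_mem mem_a hg) mem_a
  have h2 := ell_mul mem_a hg
  have h3 := ell_a
  omega

/-- a minimal word -/
def IsMin (w : List V4) : Prop := ∀ w', P w' = P w → w.length ≤ w'.length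

theorem exists_min {g : Equiv.Perm (List Bool)} (hg : g ∈ G) :
    ∃ w, IsMin w ∧ w.length = ell g ∧ P w = g := by
  obtain ⟨w, hw, rfl⟩ := ell_spec hg
  refine ⟨w, fun w' h => ?_, hw, rfl⟩
  rw [hw, ← h]
  exact ell_le w'

theorem IsMin.factor {p f q : List V4} (h : IsMin (p ++ f ++ q)) : IsMin f := by
  intro f' hf'
  have := h (p ++ f' ++ q) (by rw [P_append, P_append, P_append, P_append, hf'])
  simp only [List.length_append] at this
  omega


/-! ### The dihedral group `⟨a, d⟩` -/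

/-- the dihedral group generated by `a, d` -/
def DD : Subgroup (Equiv.Perm (List Bool)) := Subgroup.closure {a, d}

theorem DD_a : a ∈ DD := Subgroup.subset_closure (by simp)
theorem DD_d : d ∈ DD := Subgroup.subset_closure (by simp)
theorem DD_le : DD ≤ G := by
  unfold DD
  rw [Subgroup.closure_le]
  rintro x hx
  simp only [Set.mem_insert_iff, Set.mem_singleton_iff] at hx
  rcases hx with rfl | rfl
  · exact mem_a
  · exact mem_d

theorem d_rho : d * rho = a := by
  rw [rho, ← mul_assoc, d_mul_d, one_mul]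

theorem rho_inv : rho⁻¹ = a * d := by simp [rho, mul_inv_rev, a_inv, d_inv]

theorem a_eq : a = rho ^ 3 * d := by
  have h : rho ^ 3 = rho⁻¹ := by
    rw [eq_comm, inv_eq_iff_mul_eq_one, ← pow_succ', rho_pow4]
  rw [h, rho_inv, mul_assoc, d_mul_d, mul_one]

theorem DD_normal {x : Equiv.Perm (List Bool)} (hx : x ∈ DD) :
    ∃ k < 4, ∃ e < 2, x = rho ^ k * d ^ e := by
  have hmod : ∀ k : ℕ, rho ^ k = rho ^ (k % 4) := fun k => pow_eq_pow_mod k rho_pow4
  have hd2 : d ^ 2 = 1 := by rw [pow_two, d_mul_d]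
  have hmod2 : ∀ k : ℕ, d ^ k = d ^ (k % 2) := fun k => pow_eq_pow_mod k hd2
  have key : ∃ k e : ℕ, x = rho ^ k * d ^ e := by
    have ha : ∀ y : Equiv.Perm (List Bool), (∃ k e : ℕ, y = rho ^ k * d ^ e) →
        ∃ k e : ℕ, y * a = rho ^ k * d ^ e := by
      rintro y ⟨k, e, rfl⟩
      rw [hmod2 e]
      have he : e % 2 < 2 := Nat.mod_lt _ (by norm_num)
      interval_cases e % 2
      · refine ⟨k + 3, 1, ?_⟩
        rw [pow_zero, mul_one, pow_one, pow_add, mul_assoc, ← a_eq]
      · refine ⟨k + 1, 0, ?_⟩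
        rw [pow_zero, mul_one, pow_one, pow_succ, mul_assoc]
        rfl
    have hd : ∀ y : Equiv.Perm (List Bool), (∃ k e : ℕ, y = rho ^ k * d ^ e) →
        ∃ k e : ℕ, y * d = rho ^ k * d ^ e := by
      rintro y ⟨k, e, rfl⟩
      exact ⟨k, e + 1, by rw [pow_succ, mul_assoc]⟩
    unfold DD at hx
    induction hx using Subgroup.closure_induction_right with
    | one => exact ⟨0, 0, by simp⟩
    | mul_right y hy z hz ih =>
      simp only [Set.mem_insert_iff, Set.mem_singleton_iff] at hz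
      rcases hz with rfl | rfl
      · exact ha _ ih
      · exact hd _ ih
    | mul_inv_cancel y hy z hz ih =>
      simp only [Set.mem_insert_iff, Set.mem_singleton_iff] at hz
      rcases hz with rfl | rfl
      · rw [a_inv]; exact ha _ ih
      · rw [d_inv]; exact hd _ ih
  obtain ⟨k, e, rfl⟩ := key
  exact ⟨k % 4, Nat.mod_lt _ (by norm_num), e % 2, Nat.mod_lt _ (by norm_num), by
    rw [← hmod, ← hmod2]⟩

theorem DD_finite : (DD : Set (Equiv.Perm (List Bool))).Finite := by
  have h : (DD : Set (Equiv.Perm (List Bool))) ⊆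
      (fun p : ℕ × ℕ => rho ^ p.1 * d ^ p.2) '' (Set.Iio 4 ×ˢ Set.Iio 2) := by
    intro x hx
    obtain ⟨k, hk, e, he, rfl⟩ := DD_normal hx
    exact ⟨(k, e), ⟨hk, he⟩, rfl⟩
  exact Set.Finite.subset (((Set.finite_Iio 4).prod (Set.finite_Iio 2)).image _) h

theorem exists_bound : ∃ C : ℕ, ∀ r ∈ DD, ell r ≤ C ∧ ell (pair 1 r) ≤ C := by
  obtain ⟨C1, h1⟩ := (DD_finite.image ell).bddAbove
  obtain ⟨C2, h2⟩ := (DD_finite.image (fun r => ell (pair 1 r))).bddAbove
  refine ⟨max C1 C2, fun r hr => ⟨?_, ?_⟩⟩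
  · exact (h1 ⟨r, hr, rfl⟩).trans (le_max_left _ _)
  · exact (h2 ⟨r, hr, rfl⟩).trans (le_max_right _ _)

/-! ### Substitutions -/

/-- lifting a word, with choices -/
def Sub : List (V4 × Bool) → List V4
  | [] => []
  | (u, z) :: l => (if z then .b else .c) :: u.tau :: Sub l

/-- the first coordinate of the lift -/
def out : List (V4 × Bool) → Equiv.Perm (List Bool)
  | [] => 1
  | (u, z) :: l => (if z then c else d) * u.al * out l

theorem out_append (l l' : List (V4 × Bool)) : out (l ++ l') = out l * out l' := by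
  induction l with
  | nil => simp [out]
  | cons x l ih =>
    rcases x with ⟨u, z⟩
    simp only [List.cons_append, out, ih, mul_assoc]

theorem Sub_length (l : List (V4 × Bool)) : (Sub l).length = 2 * l.length := by
  induction l with
  | nil => simp [Sub]
  | cons x l ih =>
    rcases x with ⟨u, z⟩
    simp only [Sub, List.length_cons, ih]
    ring

theorem P_Sub (l : List (V4 × Bool)) : P (Sub l) = pair (out l) (P (l.map Prod.fst)) := by
  induction l with
  | nil => simp [Sub, P_nil, out, pair_one]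
  | cons x l ih =>
    rcases x with ⟨u, z⟩
    have h1 : a * (if z then V4.b else V4.c).val * a = pair (if z then c else d) a := by
      cases z
      · simp only [Bool.false_eq_true, if_false, V4.val]
        nth_rewrite 1 [c_eq]
        rw [a_conj]
      · simp only [if_true, V4.val]
        nth_rewrite 1 [b_eq]
        rw [a_conj]
    have h2 : P (Sub ((u, z) :: l)) = a * (if z then V4.b else V4.c).val * a * u.tau.val *
        P (Sub l) := by
      simp only [Sub, P_cons, mul_assoc]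
    rw [h2, h1, V4.tau_val, ih, pair_mul, pair_mul]
    simp only [out, List.map_cons, P_cons]

/-- the standard substitution -/
def sg : List V4 → List V4
  | [] => []
  | x :: w => .c :: x.tau :: sg w

theorem sg_append (u v : List V4) : sg (u ++ v) = sg u ++ sg v := by
  induction u with
  | nil => simp [sg]
  | cons x u ih => simp [sg, ih]

theorem sg_length (u : List V4) : (sg u).length = 2 * u.length := by
  induction u with
  | nil => simp [sg]
  | cons x l ih =>
    simp only [sg, List.length_cons, ih]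
    ring

/-- all choices `false` -/
def fal (w : List V4) : List (V4 × Bool) := w.map (fun x => (x, false))

theorem fal_fst (w : List V4) : (fal w).map Prod.fst = w := by
  induction w with
  | nil => rfl
  | cons x w ih =>
    change x :: (fal w).map Prod.fst = x :: w
    rw [ih]

theorem Sub_fal (w : List V4) : Sub (fal w) = sg w := by
  induction w with
  | nil => rfl
  | cons x w ih =>
    change Sub ((x, false) :: fal w) = _
    simp only [Sub, sg, ih, Bool.false_eq_true, if_false]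

theorem P_sg (w : List V4) : P (sg w) = pair (out (fal w)) (P w) := by
  rw [← Sub_fal, P_Sub, fal_fst]

theorem al_mem (x : V4) : x.al ∈ DD := by
  cases x
  · exact DD.one_mem
  · exact DD.one_mem
  · exact DD_a
  · exact DD_a

theorem out_fal_mem (w : List V4) : out (fal w) ∈ DD := by
  induction w with
  | nil => exact DD.one_mem
  | cons x w ih =>
    change out ((x, false) :: fal w) ∈ DD
    simp only [out, Bool.false_eq_true, if_false]
    exact DD.mul_mem (DD.mul_mem DD_d (al_mem x)) ih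

theorem out_mem_G (l : List (V4 × Bool)) : out l ∈ G := by
  induction l with
  | nil => exact G.one_mem
  | cons x l ih =>
    rcases x with ⟨u, z⟩
    simp only [out]
    refine G.mul_mem (G.mul_mem ?_ (DD_le (al_mem u))) ih
    cases z
    · simpa using mem_d
    · simpa using mem_c

theorem db_comm : d * b = b * d := by rw [d_mul_b, b_mul_d]

/-- conjugates of `b` -/
def cj (t : Equiv.Perm (List Bool)) : Equiv.Perm (List Bool) := t * b * t⁻¹

theorem cj_d (s : Equiv.Perm (List Bool)) (e : ℕ) : cj (s * d ^ e) = cj s := by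
  have h : d ^ e * b = b * d ^ e := by
    have : Commute d b := db_comm
    exact (this.pow_left e)
  unfold cj
  rw [mul_inv_rev, mul_assoc s, h]
  simp only [mul_assoc, mul_inv_cancel_left]

/-- one step of control -/
theorem ctrl (p q : List V4) (X Y : V4) (hX : X = .b ∨ X = .d) {r t : Equiv.Perm (List Bool)}
    (hr : r ∈ DD) (ht : t ∈ DD) : ∃ zs : List (V4 × Bool),
      zs.map Prod.fst = sg (p ++ X :: Y :: q) ∧ ∃ r' ∈ DD, r * out zs = cj t * r' := by
  have h1 : (r * out (fal (sg p)))⁻¹ * t ∈ DD :=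
    DD.mul_mem (DD.inv_mem (DD.mul_mem hr (out_fal_mem _))) ht
  obtain ⟨k, hk, e, he, hke⟩ := DD_normal h1
  have h2 : t = r * out (fal (sg p)) * rho ^ k * d ^ e := by
    rw [inv_mul_eq_iff_eq_mul] at hke
    rw [hke]
    simp only [mul_assoc]
  have hXa : X.tau.al = a := by rcases hX with rfl | rfl <;> rfl
  have hsg : sg (p ++ X :: Y :: q) = sg p ++ ([.c, X.tau, .c, Y.tau] ++ sg q) := by
    rw [sg_append]
    simp [sg]
  have hcb : c = b * d := b_mul_d.symm
  have hrp := out_fal_mem (sg p)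
  have hrq := out_fal_mem (sg q)
  have hYa := al_mem Y.tau
  have hrho : rho ∈ DD := DD.mul_mem DD_d DD_a
  have hfin : ∀ (z0 z1 z2 z3 : Bool) (r' : Equiv.Perm (List Bool)), r' ∈ DD →
      out [(.c, z0), (X.tau, z1), (.c, z2), (Y.tau, z3)] = rho ^ k * b * r' →
      ∃ zs : List (V4 × Bool),
      zs.map Prod.fst = sg (p ++ X :: Y :: q) ∧ ∃ r' ∈ DD, r * out zs = cj t * r' := by
    intro z0 z1 z2 z3 r' hr' ho
    refine ⟨fal (sg p) ++ ([(.c, z0), (X.tau, z1), (.c, z2), (Y.tau, z3)] ++ fal (sg q)), ?_,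
      r * out (fal (sg p)) * rho ^ k * r' * out (fal (sg q)), ?_, ?_⟩
    · rw [List.map_append, List.map_append, fal_fst, fal_fst, hsg]
      rfl
    · exact DD.mul_mem (DD.mul_mem (DD.mul_mem (DD.mul_mem hr hrp) (DD.pow_mem hrho k)) hr') hrq
    · rw [out_append, out_append, ho, h2, cj_d, cj]
      group
  have hal : V4.al .c = a := rfl
  interval_cases k
  · refine hfin true false false false (rho * rho * rho * (d * Y.tau.al)) ?_ ?_
    · exact DD.mul_mem (DD.mul_mem (DD.mul_mem hrho hrho) hrho) (DD.mul_mem DD_d hYa)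
    · simp only [out, if_true, Bool.false_eq_true, if_false, hal, hXa, hcb, rho]
      group
  · refine hfin false true false false (rho * rho * (d * Y.tau.al)) ?_ ?_
    · exact DD.mul_mem (DD.mul_mem hrho hrho) (DD.mul_mem DD_d hYa)
    · simp only [out, if_true, Bool.false_eq_true, if_false, hal, hXa, hcb, rho]
      group
  · refine hfin false false true false (rho * (d * Y.tau.al)) ?_ ?_
    · exact DD.mul_mem hrho (DD.mul_mem DD_d hYa)
    · simp only [out, if_true, Bool.false_eq_true, if_false, hal, hXa, hcb, rho, pow_two]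
      group
  · refine hfin false false false true (d * Y.tau.al) ?_ ?_
    · exact DD.mul_mem DD_d hYa
    · simp only [out, if_true, Bool.false_eq_true, if_false, hal, hXa, hcb, rho, pow_succ,
        pow_zero]
      group

/-- minimal words have no `e` inside -/
theorem noE {p q : List V4} {x y : V4} (h : IsMin (p ++ [x, .e, y] ++ q)) : False := by
  have h1 := h.factor
  have h2 := h1 [V4.mul x y] (by
    have hE : V4.e.val = 1 := rfl
    rw [P_cons, P_nil, P_cons, P_cons, P_cons, P_nil, V4.val_mul, hE, mul_one, mul_one, mul_one]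
    have : a * x.val * (a * (a * y.val)) = a * x.val * (a * a) * y.val := by
      simp only [mul_assoc]
    rw [this, a_mul_a, mul_one, mul_assoc])
  simp at h2

theorem noC {p q : List V4} (h : IsMin (p ++ [.c, .c, .c, .c, .c, .c, .c, .c] ++ q)) :
    False := by
  have h1 := h.factor
  have h2 := h1 [] (by
    have h3 : P [.c, .c, .c, .c, .c, .c, .c, .c] = (a * c) ^ 8 := by
      simp only [P_cons, P_nil, V4.val, pow_succ, pow_zero, mul_one, one_mul, mul_assoc]
    rw [h3, ac_pow8, P_nil])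
  simp at h2

theorem V4.cases4 (x : V4) (h : ¬ (x = .b ∨ x = .d)) (h' : x ≠ .e) : x = .c := by
  cases x <;> simp_all

theorem good_block (f : List V4) (hf : f.length = 11) (hmin : IsMin f) :
    ∃ (p : List V4) (X Y : V4) (q : List V4), f = p ++ X :: Y :: q ∧ (X = .b ∨ X = .d) := by
  match f, hf with
  | [x0, x1, x2, x3, x4, x5, x6, x7, x8, x9, x10], _ =>
    by_cases h1 : x1 = .b ∨ x1 = .d
    · exact ⟨[x0], x1, x2, _, rfl, h1⟩
    by_cases h2 : x2 = .b ∨ x2 = .d
    · exact ⟨[x0, x1], x2, x3, _, rfl, h2⟩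
    by_cases h3 : x3 = .b ∨ x3 = .d
    · exact ⟨[x0, x1, x2], x3, x4, _, rfl, h3⟩
    by_cases h4 : x4 = .b ∨ x4 = .d
    · exact ⟨[x0, x1, x2, x3], x4, x5, _, rfl, h4⟩
    by_cases h5 : x5 = .b ∨ x5 = .d
    · exact ⟨[x0, x1, x2, x3, x4], x5, x6, _, rfl, h5⟩
    by_cases h6 : x6 = .b ∨ x6 = .d
    · exact ⟨[x0, x1, x2, x3, x4, x5], x6, x7, _, rfl, h6⟩
    by_cases h7 : x7 = .b ∨ x7 = .d
    · exact ⟨[x0, x1, x2, x3, x4, x5, x6], x7, x8, _, rfl, h7⟩
    by_cases h8 : x8 = .b ∨ x8 = .d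
    · exact ⟨[x0, x1, x2, x3, x4, x5, x6, x7], x8, x9, _, rfl, h8⟩
    exfalso
    have e1 : x1 ≠ .e := by
      rintro rfl
      exact noE (p := []) (x := x0) (y := x2) (q := [x3, x4, x5, x6, x7, x8, x9, x10]) hmin
    have e2 : x2 ≠ .e := by
      rintro rfl
      exact noE (p := [x0]) (x := x1) (y := x3) (q := [x4, x5, x6, x7, x8, x9, x10]) hmin
    have e3 : x3 ≠ .e := by
      rintro rfl
      exact noE (p := [x0, x1]) (x := x2) (y := x4) (q := [x5, x6, x7, x8, x9, x10]) hmin
    have e4 : x4 ≠ .e := by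
      rintro rfl
      exact noE (p := [x0, x1, x2]) (x := x3) (y := x5) (q := [x6, x7, x8, x9, x10]) hmin
    have e5 : x5 ≠ .e := by
      rintro rfl
      exact noE (p := [x0, x1, x2, x3]) (x := x4) (y := x6) (q := [x7, x8, x9, x10]) hmin
    have e6 : x6 ≠ .e := by
      rintro rfl
      exact noE (p := [x0, x1, x2, x3, x4]) (x := x5) (y := x7) (q := [x8, x9, x10]) hmin
    have e7 : x7 ≠ .e := by
      rintro rfl
      exact noE (p := [x0, x1, x2, x3, x4, x5]) (x := x6) (y := x8) (q := [x9, x10]) hmin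
    have e8 : x8 ≠ .e := by
      rintro rfl
      exact noE (p := [x0, x1, x2, x3, x4, x5, x6]) (x := x7) (y := x9) (q := [x10]) hmin
    obtain rfl := V4.cases4 x1 h1 e1
    obtain rfl := V4.cases4 x2 h2 e2
    obtain rfl := V4.cases4 x3 h3 e3
    obtain rfl := V4.cases4 x4 h4 e4
    obtain rfl := V4.cases4 x5 h5 e5
    obtain rfl := V4.cases4 x6 h6 e6
    obtain rfl := V4.cases4 x7 h7 e7
    obtain rfl := V4.cases4 x8 h8 e8
    exact noC (p := [x0]) (q := [x9, x10]) hmin

theorem chain (T : List (Equiv.Perm (List Bool))) : (∀ t ∈ T, t ∈ DD) → ∀ w : List V4, IsMin w →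
    11 * T.length ≤ w.length → ∀ r ∈ DD, ∃ zs : List (V4 × Bool), zs.map Prod.fst = sg w ∧
      ∃ r' ∈ DD, r * out zs = (T.map cj).prod * r' := by
  induction T with
  | nil =>
    intro _ w _ _ r hr
    exact ⟨fal (sg w), fal_fst _, r * out (fal (sg w)), DD.mul_mem hr (out_fal_mem _), by simp⟩
  | cons t T ih =>
    intro hT w hw hlen r hr
    rw [List.length_cons] at hlen
    have hsplit : w = w.take 11 ++ w.drop 11 := (List.take_append_drop 11 w).symm
    have hl1 : (w.take 11).length = 11 := by rw [List.length_take]; omega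
    have hl2 : (w.drop 11).length = w.length - 11 := List.length_drop ..
    have hm1 : IsMin (w.take 11) := by
      apply IsMin.factor (p := []) (q := w.drop 11)
      rwa [List.nil_append, ← hsplit]
    have hm2 : IsMin (w.drop 11) := by
      apply IsMin.factor (p := w.take 11) (q := [])
      rwa [List.append_nil, ← hsplit]
    obtain ⟨p, X, Y, q, hf, hX⟩ := good_block _ hl1 hm1
    obtain ⟨zs1, hz1, r1, hr1, ho1⟩ := ctrl p q X Y hX hr (hT t (by simp))
    obtain ⟨zs2, hz2, r2, hr2, ho2⟩ := ih (fun t' ht' => hT t' (by simp [ht'])) (w.drop 11) hm2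
      (by omega) r1 hr1
    refine ⟨zs1 ++ zs2, ?_, r2, hr2, ?_⟩
    · rw [List.map_append, hz1, hz2, ← hf, ← sg_append, ← hsplit]
    · rw [out_append, ← mul_assoc, ho1, mul_assoc, ho2, List.map_cons, List.prod_cons, mul_assoc]

theorem prefix_form (v : List V4) : ∃ T : List (Equiv.Perm (List Bool)), (∀ t ∈ T, t ∈ DD) ∧
    T.length ≤ v.length ∧ ∃ r ∈ DD, P v = (T.map cj).prod * r := by
  induction v using List.reverseRecOn with
  | nil => exact ⟨[], by simp, by simp, 1, DD.one_mem, by simp [P_nil]⟩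
  | append_singleton v x ih =>
    obtain ⟨T, hT, hl, r, hr, hP⟩ := ih
    have hra : r * a ∈ DD := DD.mul_mem hr DD_a
    have hx1 : P (v ++ [x]) = (T.map cj).prod * (r * a * x.val) := by
      rw [P_append, hP, P_cons, P_nil, mul_one]
      simp only [mul_assoc]
    have hTb : ∀ t ∈ T ++ [r * a], t ∈ DD := by
      intro t ht
      rw [List.mem_append, List.mem_singleton] at ht
      rcases ht with ht | rfl
      · exact hT t ht
      · exact hra
    have hTl : (T ++ [r * a]).length ≤ (v ++ [x]).length := by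
      simp only [List.length_append, List.length_cons, List.length_nil]
      omega
    cases x
    · refine ⟨T, hT, by rw [List.length_append]; omega, r * a, hra, ?_⟩
      rw [hx1, V4.val, mul_one]
    · refine ⟨T ++ [r * a], hTb, hTl, r * a, hra, ?_⟩
      rw [hx1, List.map_append, List.prod_append, List.map_singleton, List.prod_singleton, cj,
        V4.val]
      group
    · refine ⟨T ++ [r * a], hTb, hTl, r * a * d, DD.mul_mem hra DD_d, ?_⟩
      rw [hx1, List.map_append, List.prod_append, List.map_singleton, List.prod_singleton, cj,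
        V4.val, ← b_mul_d]
      group
    · refine ⟨T, hT, by rw [List.length_append]; omega, r * a * d, DD.mul_mem hra DD_d, ?_⟩
      rw [hx1, V4.val]


/-! ### Length estimates -/

theorem ell_one : ell 1 = 0 := by
  have := ell_le []
  rw [P_nil] at this
  simpa using this

theorem stepA : ∃ C : ℕ, ∀ x y : Equiv.Perm (List Bool), x ∈ G → y ∈ G → pair x y ∈ G →
    ell (pair x y) ≤ 2 * ell x + 2 * ell y + C := by
  obtain ⟨C, hC⟩ := exists_bound
  refine ⟨3 * C + 2, ?_⟩
  intro x y hx hy hxy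
  obtain ⟨w, hwm, hwl, hw⟩ := exists_min hy
  have hr := out_fal_mem w
  have hPw := P_sg w
  rw [hw] at hPw
  have hx' : (out (fal w))⁻¹ * x ∈ G := G.mul_mem (G.inv_mem (DD_le hr)) hx
  obtain ⟨v, hvm, hvl, hv⟩ := exists_min hx'
  have hr2 := out_fal_mem v
  have hPv := P_sg v
  rw [hv] at hPv
  have h1 : a * P (sg v) * a = pair ((out (fal w))⁻¹ * x) (out (fal v)) := by
    rw [hPv, a_conj]
  have h2 : pair x y = P (sg w) * (a * P (sg v) * a) * pair 1 (out (fal v))⁻¹ := by
    rw [h1, hPw, pair_mul, pair_mul]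
    congr 1
    · group
    · group
  have h3 : pair 1 (out (fal v))⁻¹ ∈ G := by
    have : pair 1 (out (fal v))⁻¹ = (P (sg w) * (a * P (sg v) * a))⁻¹ * pair x y := by
      rw [h2]
      group
    rw [this]
    exact G.mul_mem (G.inv_mem (G.mul_mem (P_mem _) (G.mul_mem (G.mul_mem mem_a (P_mem _))
      mem_a))) hxy
  have h4 := ell_mul (G.mul_mem (P_mem (sg w)) (G.mul_mem (G.mul_mem mem_a (P_mem (sg v)))
    mem_a)) h3
  have h5 := ell_mul (P_mem (sg w)) (G.mul_mem (G.mul_mem mem_a (P_mem (sg v))) mem_a)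
  have h6 := ell_conj (P_mem (sg v))
  have h7 := ell_le (sg w)
  have h8 := ell_le (sg v)
  rw [sg_length] at h7 h8
  have h9 := ell_mul (G.inv_mem (DD_le hr)) hx
  have h10 := (hC _ (DD.inv_mem hr)).1
  have h11 := (hC _ (DD.inv_mem hr2)).2
  rw [← h2] at h4
  omega

theorem stepB : ∃ C : ℕ, ∀ x y0 y1 q : Equiv.Perm (List Bool), x ∈ G → y0 ∈ G → y1 ∈ G →
    pair y0 y1 ∈ G → (q = 1 ∨ q = a) → pair x (q * pair y0 y1) ∈ G →
    ell (pair x (q * pair y0 y1)) ≤
      4 * ell y1 + 4 * ell y0 + 2 * ((ell x + C) - ell y1 / 11) + C := by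
  obtain ⟨C0, hC0⟩ := exists_bound
  obtain ⟨CA, hCA⟩ := stepA
  refine ⟨10 * C0 + 10 * CA + 10, ?_⟩
  intro x y0 y1 q hx hy0 hy1 hy hq hxy
  obtain ⟨w, hwm, hwl, hw⟩ := exists_min hy1
  have hr0 := out_fal_mem w
  have hPw := P_sg w
  rw [hw] at hPw
  -- y'
  have hy'e : pair ((out (fal w))⁻¹ * y0) 1 = (P (sg w))⁻¹ * pair y0 y1 := by
    rw [hPw, pair_inv, pair_mul, inv_mul_cancel]
  have hy' : pair ((out (fal w))⁻¹ * y0) 1 ∈ G := by
    rw [hy'e]
    exact G.mul_mem (G.inv_mem (P_mem _)) hy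
  have hy'l : ell (pair ((out (fal w))⁻¹ * y0) 1) ≤ 2 * ell y0 + 2 * C0 + CA := by
    have h1 := hCA _ 1 (G.mul_mem (G.inv_mem (DD_le hr0)) hy0) G.one_mem hy'
    have h2 := ell_mul (G.inv_mem (DD_le hr0)) hy0
    have h3 := (hC0 _ (DD.inv_mem hr0)).1
    rw [ell_one] at h1
    omega
  -- s
  obtain ⟨s, hs, hsq, hsl⟩ : ∃ s ∈ DD, pair s q ∈ G ∧ ell (pair s q) ≤ 4 := by
    rcases hq with rfl | rfl
    · refine ⟨1, DD.one_mem, ?_, ?_⟩
      · rw [pair_one]
        exact G.one_mem
      · rw [pair_one, ell_one]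
        omega
    · have h1 : pair d a = a * c * a := by
        nth_rewrite 1 [c_eq]
        rw [a_conj]
      refine ⟨d, DD_d, ?_, ?_⟩
      · rw [h1]
        exact G.mul_mem (G.mul_mem mem_a mem_c) mem_a
      · have h2 : pair d a = P [.c, .e] := by
          rw [h1]
          simp only [P_cons, P_nil, V4.val, mul_one]
        rw [h2]
        exact (ell_le _).trans (by simp)
  have hx1 : s⁻¹ * x ∈ G := G.mul_mem (G.inv_mem (DD_le hs)) hx
  obtain ⟨v, hvm, hvl, hv⟩ := exists_min hx1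
  have hvl2 : v.length ≤ C0 + ell x := by
    have h2 := ell_mul (G.inv_mem (DD_le hs)) hx
    have h3 := (hC0 _ (DD.inv_mem hs)).1
    omega
  obtain ⟨T, hT, hTl, rT, hrT, hPT⟩ := prefix_form (v.take (w.length / 11))
  have hlen : 11 * T.length ≤ w.length := by
    have h1 : (v.take (w.length / 11)).length ≤ w.length / 11 := by
      rw [List.length_take]
      exact min_le_left _ _
    omega
  obtain ⟨zs, hzs, r', hr', ho⟩ := chain T hT w hwm hlen 1 DD.one_mem
  rw [one_mul] at ho
  have hx''e : (out zs)⁻¹ * (s⁻¹ * x) = (r'⁻¹ * rT) * P (v.drop (w.length / 11)) := by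
    rw [← hv]
    nth_rewrite 1 [← List.take_append_drop (w.length / 11) v]
    rw [P_append, hPT, ho]
    group
  have hx'' : (out zs)⁻¹ * (s⁻¹ * x) ∈ G := G.mul_mem (G.inv_mem (out_mem_G _)) hx1
  have hx''l : ell ((out zs)⁻¹ * (s⁻¹ * x)) ≤ C0 + (v.length - w.length / 11) := by
    rw [hx''e]
    have hrr : r'⁻¹ * rT ∈ DD := DD.mul_mem (DD.inv_mem hr') hrT
    have h1 := ell_mul (DD_le hrr) (P_mem (v.drop (w.length / 11)))
    have h2 := (hC0 _ hrr).1
    have h3 := ell_le (v.drop (w.length / 11))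
    rw [List.length_drop] at h3
    omega
  have hPS : P (Sub zs) = pair (out zs) (P (sg w)) := by rw [P_Sub, hzs]
  have hmain : pair x (q * pair y0 y1) = pair s q * P (Sub zs) *
      pair ((out zs)⁻¹ * (s⁻¹ * x)) (pair ((out (fal w))⁻¹ * y0) 1) := by
    rw [hPS, hy'e, pair_mul, pair_mul]
    congr 1
    · group
    · group
  have hlast : pair ((out zs)⁻¹ * (s⁻¹ * x)) (pair ((out (fal w))⁻¹ * y0) 1) ∈ G := by
    have : pair ((out zs)⁻¹ * (s⁻¹ * x)) (pair ((out (fal w))⁻¹ * y0) 1) =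
        (pair s q * P (Sub zs))⁻¹ * pair x (q * pair y0 y1) := by
      rw [hmain]
      group
    rw [this]
    exact G.mul_mem (G.inv_mem (G.mul_mem hsq (P_mem _))) hxy
  have h1 := ell_mul (G.mul_mem hsq (P_mem (Sub zs))) hlast
  have h2 := ell_mul hsq (P_mem (Sub zs))
  have h3 := ell_le (Sub zs)
  have h4 : zs.length = 2 * w.length := by
    have := congrArg List.length hzs
    rw [List.length_map, sg_length] at this
    exact this
  rw [Sub_length, h4] at h3
  have h5 := hCA _ _ hx'' hy' hlast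
  rw [← hmain] at h1
  rw [← hwl]
  omega

/-- Combined step. -/
theorem stepC : ∃ C : ℕ, ∀ q0 q1 q2 x0 x1 y0 y1 : Equiv.Perm (List Bool),
    (q0 = 1 ∨ q0 = a) → (q1 = 1 ∨ q1 = a) → (q2 = 1 ∨ q2 = a) →
    x0 ∈ G → x1 ∈ G → y0 ∈ G → y1 ∈ G → pair x0 x1 ∈ G → pair y0 y1 ∈ G →
    pair (q1 * pair x0 x1) (q2 * pair y0 y1) ∈ G →
    (11 * ell (q0 * pair (q1 * pair x0 x1) (q2 * pair y0 y1)) ≤
      44 * ell x0 + 44 * ell x1 + 44 * ell y0 + 42 * ell y1 + C) ∨
    (11 * ell (q0 * pair (q1 * pair x0 x1) (q2 * pair y0 y1)) ≤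
      44 * ell y0 + 44 * ell y1 + C) := by
  obtain ⟨CA, hCA⟩ := stepA
  obtain ⟨CB, hCB⟩ := stepB
  refine ⟨100 * CA + 100 * CB + 100, ?_⟩
  intro q0 q1 q2 x0 x1 y0 y1 hq0 hq1 hq2 hx0 hx1 hy0 hy1 hx hy hg
  have hq : ∀ q : Equiv.Perm (List Bool), (q = 1 ∨ q = a) → q ∈ G ∧ ell q ≤ 1 := by
    rintro q (rfl | rfl)
    · exact ⟨G.one_mem, by rw [ell_one]; omega⟩
    · exact ⟨mem_a, ell_a⟩
  have h1 := ell_mul (hq q0 hq0).1 hg
  have h2 := (hq q0 hq0).2
  have h3 := hCB (q1 * pair x0 x1) y0 y1 q2 (G.mul_mem (hq q1 hq1).1 hx) hy0 hy1 hy hq2 hg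
  have h4 := ell_mul (hq q1 hq1).1 hx
  have h5 := (hq q1 hq1).2
  have h6 := hCA x0 x1 hx0 hx1 hx
  omega

/-! ### Sections and depth -/

theorem G_form {g : Equiv.Perm (List Bool)} (hg : g ∈ G) : ∃ q x y : Equiv.Perm (List Bool),
    (q = 1 ∨ q = a) ∧ x ∈ G ∧ y ∈ G ∧ pair x y ∈ G ∧ g = q * pair x y := by
  have key : ∃ q x y : Equiv.Perm (List Bool),
      (q = 1 ∨ q = a) ∧ x ∈ G ∧ y ∈ G ∧ g = q * pair x y := by
    obtain ⟨w, rfl⟩ := P_surj hg
    clear hg
    induction w with
    | nil => exact ⟨1, 1, 1, Or.inl rfl, G.one_mem, G.one_mem, by rw [P_nil, pair_one, one_mul]⟩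
    | cons z w ih =>
      obtain ⟨q, x, y, hq, hx, hy, hP⟩ := ih
      obtain ⟨s, t, hs, ht, hz⟩ : ∃ s t, s ∈ G ∧ t ∈ G ∧ z.val = pair s t := by
        cases z
        · exact ⟨1, 1, G.one_mem, G.one_mem, pair_one.symm⟩
        · exact ⟨a, c, mem_a, mem_c, b_eq⟩
        · exact ⟨a, d, mem_a, mem_d, c_eq⟩
        · exact ⟨1, b, G.one_mem, mem_b, d_eq⟩
      rw [P_cons, hP, hz]
      rcases hq with rfl | rfl
      · refine ⟨a, s * x, t * y, Or.inr rfl, G.mul_mem hs hx, G.mul_mem ht hy, ?_⟩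
        rw [one_mul, mul_assoc, pair_mul]
      · refine ⟨1, t * x, s * y, Or.inl rfl, G.mul_mem ht hx, G.mul_mem hs hy, ?_⟩
        rw [one_mul, ← pair_mul, ← a_conj s t]
        simp only [mul_assoc]
  obtain ⟨q, x, y, hq, hx, hy, h⟩ := key
  refine ⟨q, x, y, hq, hx, hy, ?_, h⟩
  have hqG : q ∈ G := by
    rcases hq with rfl | rfl
    · exact G.one_mem
    · exact mem_a
  have : pair x y = q⁻¹ * g := by rw [h, inv_mul_cancel_left]
  rw [this]
  exact G.mul_mem (G.inv_mem hqG) hg

theorem Dep_pair {n : ℕ} {q x y : Equiv.Perm (List Bool)} (hq : q = 1 ∨ q = a)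
    (h : Dep (n + 1) (q * pair x y)) : Dep n x ∧ Dep n y := by
  constructor
  · intro u hu
    obtain ⟨s, hs, hw⟩ := h (false :: u) (by simp [hu])
    refine ⟨s, hs, fun w => ?_⟩
    have := hw w
    rcases hq with rfl | rfl
    · simpa [pair_false] using this
    · simpa [pair_false, a_apply, fa] using this
  · intro u hu
    obtain ⟨s, hs, hw⟩ := h (true :: u) (by simp [hu])
    refine ⟨s, hs, fun w => ?_⟩
    have := hw w
    rcases hq with rfl | rfl
    · simpa [pair_true] using this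
    · simpa [pair_true, a_apply, fa] using this

theorem G_nil {g : Equiv.Perm (List Bool)} (hg : g ∈ G) : g [] = [] := by
  obtain ⟨q, x, y, hq, _, _, _, rfl⟩ := G_form hg
  rcases hq with rfl | rfl
  · rfl
  · rfl

theorem ell_gen {s : Equiv.Perm (List Bool)} (hs : s = 1 ∨ s = a ∨ s = b ∨ s = c ∨ s = d) :
    ell s ≤ 2 := by
  have hx : ∀ x : V4, ell x.val ≤ 2 := by
    intro x
    have h1 : P [.e, x] = x.val := by
      simp only [P_cons, P_nil, V4.val, mul_one]
      rw [← mul_assoc, a_mul_a, one_mul]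
    rw [← h1]
    exact (ell_le _).trans (by simp)
  rcases hs with rfl | rfl | rfl | rfl | rfl
  · rw [ell_one]; omega
  · exact ell_a.trans (by norm_num)
  · exact hx .b
  · exact hx .c
  · exact hx .d

theorem Dep_zero {g : Equiv.Perm (List Bool)} (hg : g ∈ G) (h : Dep 0 g) : ell g ≤ 2 := by
  obtain ⟨s, hs, hw⟩ := h [] rfl
  have : g = s := by
    ext1 w
    have := hw w
    rw [G_nil hg] at this
    simpa using this
  rw [this]
  exact ell_gen hs

theorem main_bound : ∃ K : ℝ, 1 ≤ K ∧ ∀ n : ℕ, ∀ g ∈ G, Dep n g →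
    (ell g : ℝ) ≤ K * (175 / 11 : ℝ) ^ (n / 2) := by
  obtain ⟨CA, hCA⟩ := stepA
  obtain ⟨CC, hCC⟩ := stepC
  refine ⟨10 + CA + CC, by linarith [(Nat.cast_nonneg CA : (0 : ℝ) ≤ CA),
    (Nat.cast_nonneg CC : (0 : ℝ) ≤ CC)], ?_⟩
  have hCA0 : (0 : ℝ) ≤ CA := Nat.cast_nonneg CA
  have hCC0 : (0 : ℝ) ≤ CC := Nat.cast_nonneg CC
  intro n
  induction n using Nat.strong_induction_on with
  | _ n ih =>
    intro g hg hD
    rcases n with _ | _ | n
    · have h1 := Dep_zero hg hD
      have h2 : (ell g : ℝ) ≤ 2 := by exact_mod_cast h1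
      simp
      linarith
    · obtain ⟨q, x, y, hq, hx, hy, hxy, rfl⟩ := G_form hg
      obtain ⟨hDx, hDy⟩ := Dep_pair hq hD
      have h1 := Dep_zero hx hDx
      have h2 := Dep_zero hy hDy
      have h3 := hCA x y hx hy hxy
      have hqG : q ∈ G ∧ ell q ≤ 1 := by
        rcases hq with rfl | rfl
        · exact ⟨G.one_mem, by rw [ell_one]; omega⟩
        · exact ⟨mem_a, ell_a⟩
      have h4 := ell_mul hqG.1 hxy
      have h5 : ell (q * pair x y) ≤ 9 + CA := by omega
      have h6 : (ell (q * pair x y) : ℝ) ≤ 9 + CA := by exact_mod_cast h5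
      norm_num
      linarith
    · obtain ⟨q0, x, y, hq0, hx, hy, hxy, rfl⟩ := G_form hg
      obtain ⟨hDx, hDy⟩ := Dep_pair hq0 hD
      obtain ⟨q1, x0, x1, hq1, hx0, hx1, hxx, rfl⟩ := G_form hx
      obtain ⟨q2, y0, y1, hq2, hy0, hy1, hyy, rfl⟩ := G_form hy
      obtain ⟨hDx0, hDx1⟩ := Dep_pair hq1 hDx
      obtain ⟨hDy0, hDy1⟩ := Dep_pair hq2 hDy
      have i1 := ih n (by omega) x0 hx0 hDx0
      have i2 := ih n (by omega) x1 hx1 hDx1
      have i3 := ih n (by omega) y0 hy0 hDy0
      have i4 := ih n (by omega) y1 hy1 hDy1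
      have hdiv : (n + 1 + 1) / 2 = n / 2 + 1 := by omega
      rw [hdiv, pow_succ]
      set B : ℝ := (175 / 11 : ℝ) ^ (n / 2) with hB
      have hB1 : 1 ≤ B := one_le_pow₀ (by norm_num)
      have hKB : (10 + (CA : ℝ) + CC) * B ≥ 10 + CA + CC := by nlinarith
      rcases hCC q0 q1 q2 x0 x1 y0 y1 hq0 hq1 hq2 hx0 hx1 hy0 hy1 hxx hyy hxy with h | h
      · have h' : 11 * (ell (q0 * pair (q1 * pair x0 x1) (q2 * pair y0 y1)) : ℝ) ≤
          44 * ell x0 + 44 * ell x1 + 44 * ell y0 + 42 * ell y1 + CC := by exact_mod_cast h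
        nlinarith
      · have h' : 11 * (ell (q0 * pair (q1 * pair x0 x1) (q2 * pair y0 y1)) : ℝ) ≤
          44 * ell y0 + 44 * ell y1 + CC := by exact_mod_cast h
        nlinarith


/-- membership in `{1, a, b, c, d}` -/
def NN (s : Equiv.Perm (List Bool)) : Prop := s = 1 ∨ s = a ∨ s = b ∨ s = c ∨ s = d

theorem NN_V4 (x : V4) : NN x.val := by
  cases x
  · exact Or.inl rfl
  · exact Or.inr (Or.inr (Or.inl rfl))
  · exact Or.inr (Or.inr (Or.inr (Or.inl rfl)))
  · exact Or.inr (Or.inr (Or.inr (Or.inr rfl)))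

theorem NN_cases {s : Equiv.Perm (List Bool)} (hs : NN s) : s = a ∨ ∃ x : V4, s = x.val := by
  rcases hs with rfl | rfl | rfl | rfl | rfl
  · exact Or.inr ⟨.e, rfl⟩
  · exact Or.inl rfl
  · exact Or.inr ⟨.b, rfl⟩
  · exact Or.inr ⟨.c, rfl⟩
  · exact Or.inr ⟨.d, rfl⟩

theorem K0_V4 (x : V4) (z : Bool) : ∃ s1, NN s1 ∧ ∀ v, x.val (z :: v) = z :: s1 v := by
  cases z
  · cases x
    · exact ⟨1, Or.inl rfl, fun _ => rfl⟩
    · exact ⟨a, Or.inr (Or.inl rfl), fun v => by rw [V4.val, b_eq, pair_false]⟩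
    · exact ⟨a, Or.inr (Or.inl rfl), fun v => by rw [V4.val, c_eq, pair_false]⟩
    · exact ⟨1, Or.inl rfl, fun v => by rw [V4.val, d_eq, pair_false]⟩
  · cases x
    · exact ⟨1, Or.inl rfl, fun _ => rfl⟩
    · refine ⟨c, NN_V4 .c, fun v => ?_⟩
      rw [V4.val, b_eq, pair_true]
    · refine ⟨d, NN_V4 .d, fun v => ?_⟩
      rw [V4.val, c_eq, pair_true]
    · refine ⟨b, NN_V4 .b, fun v => ?_⟩
      rw [V4.val, d_eq, pair_true]

theorem K0 {s : Equiv.Perm (List Bool)} (hs : NN s) (z : Bool) :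
    ∃ s1 z', NN s1 ∧ ∀ v, s (z :: v) = z' :: s1 v := by
  rcases NN_cases hs with rfl | ⟨x, rfl⟩
  · exact ⟨1, !z, Or.inl rfl, fun v => rfl⟩
  · obtain ⟨s1, h1, h2⟩ := K0_V4 x z
    exact ⟨s1, z, h1, h2⟩

theorem K1 (u : List Bool) : ∀ s : Equiv.Perm (List Bool), NN s →
    ∃ s', NN s' ∧ ∀ w, s (u ++ w) = s u ++ s' w := by
  induction u with
  | nil =>
    intro s hs
    refine ⟨s, hs, fun w => ?_⟩
    have : s [] = [] := by
      rcases hs with rfl | rfl | rfl | rfl | rfl
      · rfl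
      · rfl
      · rw [b_eq, pair_nil]
      · rw [c_eq, pair_nil]
      · rw [d_eq, pair_nil]
    rw [this]
    rfl
  | cons z u ih =>
    intro s hs
    obtain ⟨s1, z', h1, h2⟩ := K0 hs z
    obtain ⟨s2, h3, h4⟩ := ih s1 h1
    refine ⟨s2, h3, fun w => ?_⟩
    rw [List.cons_append, h2, h2, h4]
    rfl

theorem K2 {s s' : Equiv.Perm (List Bool)} (hs : NN s) (hs' : NN s') (z : Bool) :
    ∃ s2 z', NN s2 ∧ ∀ v, s (s' (z :: v)) = z' :: s2 v := by
  rcases NN_cases hs' with rfl | ⟨x, rfl⟩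
  · obtain ⟨s1, z', h1, h2⟩ := K0 hs (!z)
    exact ⟨s1, z', h1, fun v => h2 v⟩
  · rcases NN_cases hs with rfl | ⟨y, rfl⟩
    · obtain ⟨s1, z', h1, h2⟩ := K0 (NN_V4 x) z
      exact ⟨s1, !z', h1, fun v => by rw [h2]; rfl⟩
    · obtain ⟨s1, z', h1, h2⟩ := K0 (NN_V4 (V4.mul y x)) z
      refine ⟨s1, z', h1, fun v => ?_⟩
      rw [← h2 v, V4.val_mul]
      rfl

theorem Dep_mul {n : ℕ} {s g : Equiv.Perm (List Bool)} (hs : NN s) (hg : Dep n g) :
    Dep (n + 1) (s * g) := by
  intro u hu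
  rcases List.eq_nil_or_concat u with rfl | ⟨u0, z, rfl⟩
  · simp at hu
  have hu0 : u0.length = n := by simpa using hu
  obtain ⟨s0, hs0, hw0⟩ := hg u0 hu0
  obtain ⟨s1, hs1, hw1⟩ := K1 (g u0) s hs
  obtain ⟨s2, z', hs2, hw2⟩ := K2 hs1 hs0 z
  refine ⟨s2, hs2, fun w => ?_⟩
  rw [List.concat_eq_append, List.append_assoc, Equiv.Perm.mul_apply, Equiv.Perm.mul_apply,
    hw0, hw0, hw1, hw1]
  have h3 := hw2 w
  have h4 := hw2 []
  have h5 : s2 [] = [] := by
    rcases hs2 with rfl | rfl | rfl | rfl | rfl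
    · rfl
    · rfl
    · rw [b_eq, pair_nil]
    · rw [c_eq, pair_nil]
    · rw [d_eq, pair_nil]
  rw [h5] at h4
  rw [List.singleton_append, h3, h4]
  simp

theorem exists_Dep {g : Equiv.Perm (List Bool)} (hg : g ∈ G) : ∃ n, Dep n g := by
  obtain ⟨w, rfl⟩ := P_surj hg
  clear hg
  induction w with
  | nil => exact ⟨0, fun u hu => ⟨1, Or.inl rfl, fun w => by simp [P_nil]⟩⟩
  | cons x w ih =>
    obtain ⟨n, hn⟩ := ih
    refine ⟨n + 1 + 1, ?_⟩
    rw [P_cons, mul_assoc]
    exact Dep_mul (Or.inr (Or.inl rfl)) (Dep_mul (NN_V4 x) hn)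

theorem Dep_depth {g : Equiv.Perm (List Bool)} (hg : g ∈ G) : Dep (depth g) g :=
  Nat.sInf_mem (s := {n | Dep n g}) (exists_Dep hg)

theorem word_of (w : List V4) : ∃ l : List (Equiv.Perm (List Bool)), l.length ≤ 2 * w.length ∧
    (∀ x ∈ l, x = a ∨ x = b ∨ x = c ∨ x = d) ∧ l.prod = P w := by
  induction w with
  | nil => exact ⟨[], by simp, by simp, by simp [P_nil]⟩
  | cons x w ih =>
    obtain ⟨l, h1, h2, h3⟩ := ih
    have hx : ∃ l' : List (Equiv.Perm (List Bool)), l'.length ≤ 2 ∧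
        (∀ x ∈ l', x = a ∨ x = b ∨ x = c ∨ x = d) ∧ l'.prod = a * x.val := by
      cases x
      · exact ⟨[a], by simp, by simp, by simp [V4.val]⟩
      · exact ⟨[a, b], by simp, by simp, by simp [V4.val]⟩
      · exact ⟨[a, c], by simp, by simp, by simp [V4.val]⟩
      · exact ⟨[a, d], by simp, by simp, by simp [V4.val]⟩
    obtain ⟨l', h1', h2', h3'⟩ := hx
    refine ⟨l' ++ l, ?_, ?_, ?_⟩
    · rw [List.length_append, List.length_cons]
      omega
    · intro y hy
      rw [List.mem_append] at hy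
      rcases hy with hy | hy
      · exact h2' y hy
      · exact h2 y hy
    · rw [List.prod_append, h3, h3', P_cons]

theorem wordLen_le {g : Equiv.Perm (List Bool)} (hg : g ∈ G) : wordLen g ≤ 2 * ell g := by
  obtain ⟨w, hw, rfl⟩ := ell_spec hg
  obtain ⟨l, h1, h2, h3⟩ := word_of w
  rw [← hw]
  exact le_trans (Nat.sInf_le ⟨l, rfl, h2, h3⟩) h1

/-- **Q1.** There are `μ > 1/2` and `C` with `d(g) ≥ μ log₂ |g| + C` for all `g ≠ 1` in the
Grigorchuk group. -/
theorem result : ∃ μ C : ℝ, 1 / 2 < μ ∧ ∀ g ∈ G, g ≠ 1 →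
    μ * Real.logb 2 (wordLen g) + C ≤ (depth g : ℝ) := by
  obtain ⟨K, hK1, hK⟩ := main_bound
  have hq1 : (1 : ℝ) < 175 / 11 := by norm_num
  have hlq : 0 < Real.log (175 / 11) := Real.log_pos hq1
  have hl2 : 0 < Real.log 2 := Real.log_pos (by norm_num)
  have hlt : Real.log (175 / 11) < 4 * Real.log 2 := by
    have h1 : 4 * Real.log 2 = Real.log 16 := by
      rw [show (16 : ℝ) = 2 ^ 4 by norm_num, Real.log_pow]
      norm_num
    rw [h1]
    exact Real.log_lt_log (by norm_num) (by norm_num)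
  have hlK : 0 ≤ Real.log (2 * K) := Real.log_nonneg (by linarith)
  refine ⟨2 * Real.log 2 / Real.log (175 / 11), -(2 * Real.log (2 * K) / Real.log (175 / 11)),
    ?_, ?_⟩
  · rw [lt_div_iff₀ hlq]
    linarith
  · intro g hg _
    have h1 := hK (depth g) g hg (Dep_depth hg)
    have h2 : (wordLen g : ℝ) ≤ 2 * ell g := by exact_mod_cast wordLen_le hg
    have h3 : (wordLen g : ℝ) ≤ 2 * K * (175 / 11 : ℝ) ^ (depth g / 2) := by
      refine h2.trans ?_
      rw [mul_assoc]
      linarith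
    have h4 : Real.log (wordLen g) ≤ Real.log (2 * K) + (depth g : ℝ) / 2 *
        Real.log (175 / 11) := by
      rcases Nat.eq_zero_or_pos (wordLen g) with h0 | h0
      · rw [h0]
        simp only [Nat.cast_zero, Real.log_zero]
        positivity
      · have h5 : (0 : ℝ) < wordLen g := by exact_mod_cast h0
        have h6 := Real.log_le_log h5 h3
        rw [Real.log_mul (by positivity) (by positivity), Real.log_pow] at h6
        have h7 : ((depth g / 2 : ℕ) : ℝ) ≤ (depth g : ℝ) / 2 := Nat.cast_div_le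
        have h8 := mul_le_mul_of_nonneg_right h7 hlq.le
        linarith
    have h5 : 2 * Real.log 2 / Real.log (175 / 11) * Real.logb 2 (wordLen g) =
        2 * Real.log (wordLen g) / Real.log (175 / 11) := by
      rw [Real.logb]
      field_simp
    rw [h5, ← sub_eq_add_neg, ← sub_div, div_le_iff₀ hlq]
    linarith

end Pool.Agent.Results.MP_7efe7b_al.DepthLower
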